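import Pool.Agent.KS6_81.OE.Alg
import Pool.Agent.KS6_81.OE.Forest

/-!
# Online partial `Δ`-edge-colouring: bounds for the optimal colouring probability

`p Δ L` is the best probability with which a randomised online algorithm with `Δ` colours can colour
every edge of every graph of maximum degree at most `Δ` and girth at least `L` (oblivious
adversary). We show

`1 - 9 Δ ^ (-1/4) ≤ p Δ L ≤ 1 - (log Δ / 12 - 1) / Δ` for all `Δ ≥ 1` and all `L`.

The lower bound needs no condition on the girth, and the upper bound holds for forests. In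
particular Q1 has a positive answer.

* Algorithm. Every vertex `x` and colour `c` has a weight `W x c`, which is zero if `c` is used at
  `x`, and otherwise the inverse of the product of the factors `1 - p` over the earlier edges at
  `x`, `p` the probability of the colour `c`. The edge `uv` gets the colour `c` with probability
  `W u c * W v c / max (D, ∑ c', W u c' * W v c')`, `D = (1 + ε) Δ`, `ε = 4 Δ ^ (-1/4)`, unless this
  would increase one of the weights above `K = 2 (1 + ε) / ε`. The inverse of `W u c` is at least
  one minus the sum of the weights of the neighbours, divided by `D`. Under the law with the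
  density `W u c * W v c` this sum has variance `O (K Δ)` (up to a small drift); this is proved
  with a potential which contains the weights of the future neighbours of `u`. Hence colours are
  rarely blocked.
* Upper bound. The adversary first reveals `2 Δ` stars with `Δ - 1` edges, and then joins a new
  vertex `x` to the centres of `Δ` of them. If the failure probability is `δ`, then on average
  `1 + δ (Δ - 1)` colours are free at a centre. Let `f c` be the proportion of the centres at which
  `c` is free. When `r` colours are free at `x`, a random centre has with probability at least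
  `3/4` no colour `c` that is free at both ends with `f c < 1 / (8 r)`; so each edge at `x` is
  uncoloured or uses up `1 / (8 r)` of the total mass `∑ c, f c` with this probability. Hence
  `1 + δ Δ` is at least a multiple of `∑ 1 / r`.
-/

open Filter Topology
open scoped ENNReal

namespace Pool.Agent.Results.MP_8fc531_lc.PolynomialRates

open Pool.Agent.KS6_81.OE

/-- **The optimal colouring probability.**
(1) For all `Δ ≥ 1` and `L`: `1 - 9 Δ ^ (-1/4) ≤ p Δ L ≤ 1 - (log Δ / 12 - 1) / Δ`.
(2) For every `Δ ≥ 1` and every online algorithm there are a forest of maximum degree at most `Δ`, an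
order of arrival of its edges and an edge that gets a colour with probability at most
`1 - (log Δ / 12 - 1) / Δ`.
(3) Q1 has a positive answer: `sup_L p(Δ, L)` tends to `1` as `Δ → ∞`. -/
theorem result :
    (∀ Δ : ℕ, 1 ≤ Δ → ∀ L : ℕ,
      ENNReal.ofReal (1 - 9 * (Δ : ℝ) ^ (-(1 / 4) : ℝ)) ≤ p Δ L ∧
        p Δ L ≤ ENNReal.ofReal (1 - (Real.log Δ / 12 - 1) / Δ)) ∧
    (∀ Δ : ℕ, 1 ≤ Δ → ∀ A : ∀ n, OnlineAlgorithm (Fin n) Δ,
      ∃ (n : ℕ) (G : SimpleGraph (Fin n)) (es : List (Sym2 (Fin n))) (e : Sym2 (Fin n)),
        G.IsAcyclic ∧ (∀ L, IsInput Δ L G es) ∧ e ∈ G.edgeSet ∧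
          (A n).colourProb es e ≤ ENNReal.ofReal (1 - (Real.log Δ / 12 - 1) / Δ)) ∧
    Tendsto (fun Δ : ℕ => ⨆ (L : ℕ) (_ : 3 ≤ L), p Δ L) atTop (𝓝 1) := by
  refine ⟨fun Δ hΔ L => ⟨upper Δ hΔ L, p_le Δ hΔ L⟩, fun Δ hΔ A => lower Δ hΔ A, ?_⟩
  have h1 : Tendsto (fun Δ : ℕ => ENNReal.ofReal (1 - 9 * (Δ : ℝ) ^ (-(1 / 4) : ℝ))) atTop
      (𝓝 1) := by
    rw [← ENNReal.ofReal_one]
    apply ENNReal.tendsto_ofReal
    have h2 : Tendsto (fun Δ : ℕ => (Δ : ℝ) ^ (-(1 / 4) : ℝ)) atTop (𝓝 0) :=
      (tendsto_rpow_neg_atTop (by norm_num)).comp tendsto_natCast_atTop_atTop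
    simpa using (h2.const_mul 9).const_sub 1
  refine tendsto_of_tendsto_of_tendsto_of_le_of_le' h1 tendsto_const_nhds ?_ ?_
  · filter_upwards [eventually_ge_atTop 1] with Δ hΔ
    exact le_iSup₂_of_le 3 le_rfl (upper Δ hΔ 3)
  · have h3 : Tendsto (fun Δ : ℕ => Real.log (Δ : ℝ)) atTop atTop :=
      Real.tendsto_log_atTop.comp tendsto_natCast_atTop_atTop
    filter_upwards [eventually_ge_atTop 1, h3.eventually_ge_atTop 12] with Δ hΔ hlog
    refine iSup₂_le fun L _ => (p_le Δ hΔ L).trans ?_
    rw [← ENNReal.ofReal_one]
    apply ENNReal.ofReal_le_ofReal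
    have : 0 ≤ (Real.log (Δ : ℝ) / 12 - 1) / Δ := by
      apply div_nonneg _ (Nat.cast_nonneg _)
      linarith
    linarith

end Pool.Agent.Results.MP_8fc531_lc.PolynomialRates
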